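import Pool.Agent.Q196.PC.Main

/-! # MP_2a076f_an, Q1: disproof

There is a basic sequence `q` which is dynamically generated by a system of positive
Kolmogorov-Sinai entropy and for which every `q`-normal number is uniformly `q`-normal, so that
`(N(q) ∩ DN(q)) \ UN(q)` is empty; in particular its Hausdorff dimension is `0 < 1`. -/

set_option autoImplicit false

open Q196.PC

namespace Pool.Agent.Results.MP_2a076f_an.ParityCode

theorem result :
    ∃ q : ℕ → ℕ, (∀ n, 2 ≤ q n) ∧ NonDeterministic q ∧ normalSet q ⊆ uniformNormalSet q ∧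
      (normalSet q ∩ distNormalSet q) \ uniformNormalSet q = ∅ ∧
      dimH ((normalSet q ∩ distNormalSet q) \ uniformNormalSet q) < 1 := by
  obtain ⟨q, h1, h2, h3, -⟩ := main
  have h : (normalSet q ∩ distNormalSet q) \ uniformNormalSet q = ∅ :=
    Set.diff_eq_empty.2 (Set.inter_subset_left.trans h3)
  exact ⟨q, h1, h2, h3, h, by rw [h, dimH_empty]; norm_num⟩

end Pool.Agent.Results.MP_2a076f_an.ParityCode
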